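import Pool.Agent.H162R2.AG.FinP

/-!
# The (p,1)-total labelling number of almost all graphs

Project of helper162 with helpers 477, 267, 372, 143, 20, 251, 97, 84, 804, 997, 540, 52, 439,
598, 89, 501, 889, 231, 92, 431, 837, 551, 25, 79, 662, 793, 503, 959.
-/

set_option autoImplicit false

namespace Pool.Agent.Results.MP_b8729f_co.AlmostAllExact

/-- For every `p ≥ 1`, the proportion of the labelled graphs `G` on `n` vertices whose
`(p,1)`-total labelling number is exactly `Δ(G) + p - 1` (a labelling of span `l` exists if and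
only if `l ≥ Δ(G) + p - 1`) tends to `1`. -/
theorem result (p : ℕ) (hp : 1 ≤ p) : Filter.Tendsto (fun n : ℕ =>
    ({G : SimpleGraph (Fin n) | ∀ [DecidableRel G.Adj] (l : ℕ),
      (∃ (fV : Fin n → ℕ) (fE : Sym2 (Fin n) → ℕ),
        (∀ v : Fin n, fV v ≤ l) ∧
        (∀ e ∈ G.edgeSet, fE e ≤ l) ∧
        (∀ u v : Fin n, G.Adj u v → fV u ≠ fV v) ∧
        (∀ u v : Fin n, G.Adj u v → (p : ℤ) ≤ |(fV u : ℤ) - (fE s(u, v) : ℤ)|) ∧
        (∀ u v w : Fin n, G.Adj u v → G.Adj u w → v ≠ w → fE s(u, v) ≠ fE s(u, w))) ↔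
      G.maxDegree + p ≤ l + 1}.ncard : ℝ) /
      (Nat.card (SimpleGraph (Fin n)) : ℝ)) Filter.atTop (nhds 1) :=
  Pool.Agent.H162R2.AG.almost_all_exact p hp

end Pool.Agent.Results.MP_b8729f_co.AlmostAllExact
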