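import Pool.Agent.H162R2.AG.FinP

/-!
# (p,1)-total labellings of almost all graphs from lists

Project of helper162 with helpers 477, 267, 372, 143, 20, 251, 97, 84, 804, 997, 540, 52, 439,
598, 89, 501, 889, 231, 92, 431, 837, 551, 25, 79, 662.
-/

set_option autoImplicit false

namespace Pool.Agent.Results.MP_b8729f_co.AlmostAllLists

/-- For every `p ≥ 1`, the proportion of the labelled graphs `G` on `n` vertices which have a
`(p,1)`-total labelling from any lists of at least `Δ(G) + 2 * p - 1` natural numbers at the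
vertices and at the edges tends to `1`. -/
theorem result (p : ℕ) (hp : 1 ≤ p) : Filter.Tendsto (fun n : ℕ =>
    ({G : SimpleGraph (Fin n) | ∀ [DecidableRel G.Adj] (M : Fin n → Finset ℕ)
      (L : Sym2 (Fin n) → Finset ℕ),
      (∀ v, G.maxDegree + 2 * p - 1 ≤ (M v).card) →
      (∀ e ∈ G.edgeSet, G.maxDegree + 2 * p - 1 ≤ (L e).card) →
      ∃ (fV : Fin n → ℕ) (fE : Sym2 (Fin n) → ℕ),
        (∀ v : Fin n, fV v ∈ M v) ∧
        (∀ e ∈ G.edgeSet, fE e ∈ L e) ∧
        (∀ u v : Fin n, G.Adj u v → fV u ≠ fV v) ∧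
        (∀ u v : Fin n, G.Adj u v → (p : ℤ) ≤ |(fV u : ℤ) - (fE s(u, v) : ℤ)|) ∧
        (∀ u v w : Fin n, G.Adj u v → G.Adj u w → v ≠ w →
          fE s(u, v) ≠ fE s(u, w))}.ncard : ℝ) /
      (Nat.card (SimpleGraph (Fin n)) : ℝ)) Filter.atTop (nhds 1) :=
  Pool.Agent.H162R2.AG.almost_all_lists p hp

end Pool.Agent.Results.MP_b8729f_co.AlmostAllLists
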