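import Mathlib
import Pool.Agent.H238R2.HY.Main

/-!
# The Havet-Yu conjecture on (p,1)-total labelings holds asymptotically, uniformly in `p`

For every finite graph `G` of maximum degree `D` and every `p ≥ 1` the `(p,1)`-total labeling
number is at most `D + 2 p + 8 D^(2/3) (log D)^(1/3)`; the labels can even be taken on a circle,
where the bound is asymptotically sharp for every graph.

Proof.  By the local lemma the vertices can be distributed into `K` types such that every vertex
has at most `w` neighbours of each type, with `w` close to `D / K`.  Put `W = w + 1` and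
`N = (K + 1) W + 2 p - 2`.  An edge `uv` between types `x` and `y` gets the label
`(x + y) W + c (mod N)`, where `c < W` is its colour in a proper edge colouring (Vizing) of the
graph of all edges with type sum `x + y`.  The labels at a vertex of type `x` then lie on an arc of
length `K W` starting at `x W`, and the vertex receives a label in the middle of the complementary
arc.
-/

set_option autoImplicit false

namespace Pool.Agent.Results.MP_b8729f_co.Asymptotic

open Finset

/-- `TotalLabeling G p l`: the graph `G` has a `(p,1)`-total labeling of span `l`, that is, labels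
`0, …, l` for the vertices (`fV`) and the edges (`fE`) such that adjacent vertices get different
labels, edges sharing an endpoint get different labels, and the labels of a vertex and of an
incident edge differ by at least `p`. -/
def TotalLabeling {V : Type} (G : SimpleGraph V) (p l : ℕ) : Prop :=
  ∃ (fV : V → ℕ) (fE : Sym2 V → ℕ),
    (∀ v, fV v ≤ l) ∧ (∀ e ∈ G.edgeSet, fE e ≤ l) ∧
    (∀ u v, G.Adj u v → fV u ≠ fV v) ∧
    (∀ u v w, G.Adj u v → G.Adj u w → v ≠ w → fE s(u, v) ≠ fE s(u, w)) ∧
    (∀ u v, G.Adj u v → (p : ℤ) ≤ |(fV u : ℤ) - (fE s(u, v) : ℤ)|)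

/-- `CircularLabeling G p N`: a circular `(p,1)`-total labeling of `G` with the `N` labels
`0, …, N - 1` placed around a circle: as above, but the distance of the labels of a vertex and of
an incident edge, measured around the circle, is at least `p`
(so `p ≤ |fV u - fE uv| ≤ N - p`). -/
def CircularLabeling {V : Type} (G : SimpleGraph V) (p N : ℕ) : Prop :=
  ∃ (fV : V → ℕ) (fE : Sym2 V → ℕ),
    (∀ v, fV v < N) ∧ (∀ e ∈ G.edgeSet, fE e < N) ∧
    (∀ u v, G.Adj u v → fV u ≠ fV v) ∧
    (∀ u v w, G.Adj u v → G.Adj u w → v ≠ w → fE s(u, v) ≠ fE s(u, w)) ∧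
    (∀ u v, G.Adj u v → (p : ℤ) ≤ |(fV u : ℤ) - (fE s(u, v) : ℤ)| ∧
      |(fV u : ℤ) - (fE s(u, v) : ℤ)| ≤ (N : ℤ) - p)

theorem circ_lin {V : Type} {G : SimpleGraph V} {p N : ℕ} (h : CircularLabeling G p N) :
    TotalLabeling G p (N - 1) := by
  obtain ⟨fV, fE, h1, h2, h3, h4, h5⟩ := h
  exact ⟨fV, fE, fun v => Nat.le_sub_one_of_lt (h1 v), fun e he => Nat.le_sub_one_of_lt (h2 e he),
    h3, h4, fun u v huv => (h5 u v huv).1⟩

theorem circ_lower {V : Type} [Fintype V] (G : SimpleGraph V) [DecidableRel G.Adj] (p N : ℕ)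
    (hD : 1 ≤ G.maxDegree) (h : CircularLabeling G p N) : G.maxDegree + 2 * p ≤ N + 1 := by
  classical
  obtain ⟨fV, fE, h1, h2, h3, h4, h5⟩ := h
  have hne : Nonempty V := by
    by_contra hne
    rw [not_nonempty_iff] at hne
    have : G.maxDegree = 0 := by
      rw [SimpleGraph.maxDegree]
      simp
    omega
  obtain ⟨v, hv⟩ := G.exists_maximal_degree_vertex
  have hinj : Set.InjOn (fun u => (fE s(v, u) + N - fV v) % N) (G.neighborFinset v : Set V) := by
    intro u hu u' hu' he
    rw [mem_coe, SimpleGraph.mem_neighborFinset] at hu hu'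
    by_contra hne
    have e1 := h2 s(v, u) hu
    have e2 := h2 s(v, u') hu'
    have e3 := h1 v
    refine h4 v u u' hu hu' hne ?_
    simp only at he
    have e4 : fE s(v, u) + (N - fV v) ≡ fE s(v, u') + (N - fV v) [MOD N] := by
      have a1 : fE s(v, u) + (N - fV v) = fE s(v, u) + N - fV v := by omega
      have a2 : fE s(v, u') + (N - fV v) = fE s(v, u') + N - fV v := by omega
      rw [a1, a2]; exact he
    exact Nat.ModEq.eq_of_lt_of_lt (Nat.ModEq.add_right_cancel' _ e4) e1 e2
  have hmaps : ∀ u ∈ G.neighborFinset v, (fE s(v, u) + N - fV v) % N ∈ Icc p (N - p) := by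
    intro u hu
    rw [SimpleGraph.mem_neighborFinset] at hu
    have e1 := h2 s(v, u) hu
    have e3 := h1 v
    obtain ⟨e4, e5⟩ := h5 v u hu
    rw [mem_Icc]
    rcases le_total (fV v) (fE s(v, u)) with hle | hle
    · have e6 : |(fV v : ℤ) - (fE s(v, u) : ℤ)| = (fE s(v, u) : ℤ) - fV v := by
        rw [abs_of_nonpos (by have : (fV v : ℤ) ≤ fE s(v, u) := by exact_mod_cast hle
                              linarith)]
        ring
      rw [e6] at e4 e5
      have e7 : fE s(v, u) + N - fV v = (fE s(v, u) - fV v) + N := by omega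
      rw [e7, Nat.add_mod_right, Nat.mod_eq_of_lt (by omega)]
      omega
    · have e6 : |(fV v : ℤ) - (fE s(v, u) : ℤ)| = (fV v : ℤ) - fE s(v, u) := by
        rw [abs_of_nonneg (by have : (fE s(v, u) : ℤ) ≤ fV v := by exact_mod_cast hle
                              linarith)]
      rw [e6] at e4 e5
      rcases Nat.eq_or_lt_of_le hle with heq | hlt
      · have e7 : fE s(v, u) + N - fV v = 0 + N := by omega
        rw [e7, Nat.add_mod_right, Nat.zero_mod]
        omega
      · rw [Nat.mod_eq_of_lt (by omega)]
        omega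
  have hcard := Finset.card_le_card_of_injOn _ hmaps hinj
  rw [SimpleGraph.card_neighborFinset_eq_degree, ← hv, Nat.card_Icc] at hcard
  have hp : 2 * p ≤ N := by
    have hpos : 0 < (G.neighborFinset v).card := by
      rw [SimpleGraph.card_neighborFinset_eq_degree, ← hv]; exact hD
    obtain ⟨u, hu⟩ := Finset.card_pos.1 hpos
    have := mem_Icc.1 (hmaps u hu)
    omega
  omega

/-- **Asymptotic form of the Havet-Yu conjecture, uniformly in `p`.**
Every finite graph `G` of maximum degree `D` has, for every `p ≥ 1`, a circular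
`(p,1)`-total labeling with `N ≤ D + 2 p + 1 + 8 D^(2/3) (log D)^(1/3)` labels, and so a
`(p,1)`-total labeling of span `N - 1 ≤ D + 2 p + 8 D^(2/3) (log D)^(1/3)`.
If `G` has an edge, every circular `(p,1)`-total labeling of `G` needs at least `D + 2 p - 1`
labels, so the bound is asymptotically sharp for the circular version, for every graph. -/
theorem result :
    ∀ (V : Type) [Fintype V] (G : SimpleGraph V) [DecidableRel G.Adj] (p : ℕ), 1 ≤ p →
      (∃ N : ℕ, (N : ℝ) ≤ G.maxDegree + 2 * p + 1 +
          8 * ((G.maxDegree : ℝ) ^ (2 / 3 : ℝ) * Real.log G.maxDegree ^ (1 / 3 : ℝ)) ∧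
        CircularLabeling G p N ∧ TotalLabeling G p (N - 1)) ∧
      (1 ≤ G.maxDegree → ∀ N : ℕ, CircularLabeling G p N → G.maxDegree + 2 * p ≤ N + 1) := by
  intro V _ G _ p hp
  obtain ⟨N, hN, hC⟩ := Pool.Agent.H238R2.HY.main G p hp
  exact ⟨⟨N, hN, hC, circ_lin hC⟩, fun hD N h => circ_lower G p N hD h⟩

end Pool.Agent.Results.MP_b8729f_co.Asymptotic
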