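import Pool.Agent.H162R2.Sparse.PTotal

/-!
# The Havet-Yu conjecture for sparse graphs, also from lists

For every `p ≥ 1` and every finite simple graph `G` of maximum degree `D` whose maximum average
degree `a` satisfies `34 * a * (1 + log D) ≤ D` and `4 * p * a ≤ D`, there is a (p,1)-total
labelling of span `D + 2 * p - 2` (one less than conjectured), and there is even one from all lists
of `D + 2 * p - 1` labels.
-/

set_option autoImplicit false

namespace Pool.Agent.Results.MP_b8729f_co.SparseGraphs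

/-- Let `p ≥ 1`, let `G` be a finite simple graph with maximum degree at most `D`, and let `a` be
a real number such that every set `X` of vertices spans at most `a * |X| / 2` edges (at most
`a * |X|` ordered pairs of adjacent vertices), i.e. the maximum average degree of `G` is at most
`a`. Suppose `34 * a * (1 + log D) ≤ D` and `4 * p * a ≤ D`. Then from any lists of at least
`D + 2 * p - 1` natural numbers at the vertices and edges one can choose a (p,1)-total labelling
of `G`. (For the lists `{0, ..., D + 2 * p - 2}` this is a labelling of span `D + 2 * p - 2`,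
see `span`.) -/
theorem result (p : ℕ) (hp : 1 ≤ p) (V : Type) [Fintype V] (G : SimpleGraph V) (D : ℕ)
    (hD : ∀ v, (G.neighborSet v).ncard ≤ D)
    (a : ℝ) (hmad : ∀ X : Finset V,
      ({e : V × V | e.1 ∈ X ∧ e.2 ∈ X ∧ G.Adj e.1 e.2}.ncard : ℝ) ≤ a * X.card)
    (ha : 34 * a * (1 + Real.log D) ≤ D) (hap : 4 * p * a ≤ D)
    (M : V → Finset ℕ) (hM : ∀ v, D + 2 * p - 1 ≤ (M v).card)
    (L : Sym2 V → Finset ℕ) (hL : ∀ e ∈ G.edgeSet, D + 2 * p - 1 ≤ (L e).card) :
    ∃ (fV : V → ℕ) (fE : Sym2 V → ℕ),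
      (∀ v : V, fV v ∈ M v) ∧
      (∀ e ∈ G.edgeSet, fE e ∈ L e) ∧
      (∀ u v : V, G.Adj u v → fV u ≠ fV v) ∧
      (∀ u v : V, G.Adj u v → (p : ℤ) ≤ |(fV u : ℤ) - (fE s(u, v) : ℤ)|) ∧
      (∀ u v w : V, G.Adj u v → G.Adj u w → v ≠ w → fE s(u, v) ≠ fE s(u, w)) := by
  classical
  obtain ⟨c, h1, h2, h3, h4⟩ := Pool.Agent.H162R2.Sparse.p_sparse p hp G D hD a hmad ha hap
    (fun x => Sum.elim M (fun e => L e.1) x) (by
      intro x
      rcases x with v | e
      · have := hM v
        simp only [Sum.elim_inl]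
        omega
      · have := hL e.1 e.2
        simp only [Sum.elim_inr]
        omega)
  refine ⟨fun v => c (Sum.inl v), fun e => if h : e ∈ G.edgeSet then c (Sum.inr ⟨e, h⟩) else 0,
    ?_, ?_, h2, ?_, ?_⟩
  · intro v
    exact h1 (Sum.inl v)
  · intro e he
    simp only
    rw [dif_pos he]
    exact h1 (Sum.inr ⟨e, he⟩)
  · intro u v huv
    have he : s(u, v) ∈ G.edgeSet := huv
    simp only
    rw [dif_pos he]
    have h5 := h4 u ⟨s(u, v), he⟩ (Sym2.mem_mk_left u v)
    unfold Pool.Agent.H162R2.Sparse.Far at h5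
    rw [le_abs]
    omega
  · intro u v w huv huw hvw
    have he : s(u, v) ∈ G.edgeSet := huv
    have he' : s(u, w) ∈ G.edgeSet := huw
    simp only
    rw [dif_pos he, dif_pos he']
    apply h3
    · intro h
      have h6 := congrArg Subtype.val h
      simp only at h6
      rcases Sym2.eq_iff.1 h6 with ⟨_, h7⟩ | ⟨h7, h8⟩
      · exact hvw h7
      · exact hvw (h8.trans h7)
    · exact ⟨u, Sym2.mem_mk_left u v, Sym2.mem_mk_left u w⟩

/-- The case of equal lists: a (p,1)-total labelling of span `D + 2 * p - 2`. -/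
theorem span (p : ℕ) (hp : 1 ≤ p) (V : Type) [Fintype V] (G : SimpleGraph V) (D : ℕ)
    (hD : ∀ v, (G.neighborSet v).ncard ≤ D)
    (a : ℝ) (hmad : ∀ X : Finset V,
      ({e : V × V | e.1 ∈ X ∧ e.2 ∈ X ∧ G.Adj e.1 e.2}.ncard : ℝ) ≤ a * X.card)
    (ha : 34 * a * (1 + Real.log D) ≤ D) (hap : 4 * p * a ≤ D) :
    ∃ (fV : V → ℕ) (fE : Sym2 V → ℕ),
      (∀ v : V, fV v ≤ D + 2 * p - 2) ∧
      (∀ e ∈ G.edgeSet, fE e ≤ D + 2 * p - 2) ∧
      (∀ u v : V, G.Adj u v → fV u ≠ fV v) ∧
      (∀ u v : V, G.Adj u v → (p : ℤ) ≤ |(fV u : ℤ) - (fE s(u, v) : ℤ)|) ∧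
      (∀ u v w : V, G.Adj u v → G.Adj u w → v ≠ w → fE s(u, v) ≠ fE s(u, w)) := by
  obtain ⟨fV, fE, h1, h2, h3⟩ := result p hp V G D hD a hmad ha hap
    (fun _ => Finset.range (D + 2 * p - 1)) (fun _ => by rw [Finset.card_range])
    (fun _ => Finset.range (D + 2 * p - 1)) (fun _ _ => by rw [Finset.card_range])
  refine ⟨fV, fE, ?_, ?_, h3⟩
  · intro v
    have := Finset.mem_range.1 (h1 v)
    omega
  · intro e he
    have := Finset.mem_range.1 (h2 e he)
    omega

end Pool.Agent.Results.MP_b8729f_co.SparseGraphs
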